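import Pool.Agent.Helper47.TW.WLim
import Pool.Agent.Helper98.ZA.Stmts

/-!
Row ZUE of the sheet ZA (MP_7a8f48_an): averages along the orbits of a uniquely ergodic map.
-/

open MeasureTheory Filter Topology Finset
open scoped ComplexConjugate ENNReal

namespace Pool.Agent.Helper59.ZA

open Pool.Agent.Helper98.ZA (ST_ZUE Un)

/-- **ZUE**. -/
theorem st_ZUE : ST_ZUE := by
  intro Y _ _ _ _ ν _ S hS hu F y
  set I : ℝ := ∫ x, F x ∂ν with hI
  set Ψ : Y → ℂ := fun x => ((F x - I : ℝ) : ℂ) with hΨ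
  have hΨc : Continuous Ψ :=
    Complex.continuous_ofReal.comp (F.continuous.sub continuous_const)
  have hFi : ∀ ρ : Measure Y, IsProbabilityMeasure ρ → Integrable F ρ := by
    intro ρ _
    obtain ⟨B, hB⟩ := isCompact_univ.exists_bound_of_continuousOn F.continuous.continuousOn
    exact Integrable.of_bound F.continuous.aestronglyMeasurable B
      (Eventually.of_forall fun y => hB y (Set.mem_univ y))
  have key := fun ε hε => Pool.Agent.Helper47.TW.wlim_gen hS y Ψ hΨc 0 (fun lam hl he => by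
    have h1 : lam = ν := hu.2 lam hl he.toMeasurePreserving
    subst h1
    simp only [hΨ]
    rw [integral_complex_ofReal, integral_sub (hFi _ inferInstance) (integrable_const _)]
    simp [hI]) ε hε
  have key2 : ∀ ε : ℝ, 0 < ε → ∀ᶠ N : ℕ in atTop,
      |∑ n ∈ Icc 1 N, (F (S^[n] y) - I)| ≤ ε * N := by
    intro ε hε
    filter_upwards [key ε hε] with N hN
    have h1 : ∑ n ∈ Finset.Icc 1 N, Ψ (S^[n] y) =
        ((∑ n ∈ Finset.Icc 1 N, (F (S^[n] y) - I) : ℝ) : ℂ) := by
      simp only [hΨ]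
      push_cast
      rfl
    rw [h1, Complex.norm_real, Real.norm_eq_abs, zero_add] at hN
    exact hN
  have hIcc : Tendsto (fun N : ℕ => (∑ n ∈ Icc 1 N, F (S^[n] y)) / (N : ℝ)) atTop (𝓝 I) := by
    rw [Metric.tendsto_atTop]
    intro ε hε
    obtain ⟨M, hM⟩ := eventually_atTop.1 ((key2 (ε / 2) (by positivity)).and
      (eventually_ge_atTop 1))
    refine ⟨M, fun n hn => ?_⟩
    obtain ⟨h3, h5⟩ := hM n hn
    have hn0 : (0 : ℝ) < n := by exact_mod_cast h5
    have e3 : (∑ i ∈ Icc 1 n, F (S^[i] y)) / (n : ℝ) - I =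
        (∑ i ∈ Icc 1 n, (F (S^[i] y) - I)) / (n : ℝ) := by
      rw [Finset.sum_sub_distrib, Finset.sum_const, Nat.card_Icc, nsmul_eq_mul, sub_div]
      simp only [Nat.add_sub_cancel]
      rw [mul_div_cancel_left₀ _ hn0.ne']
    rw [Real.dist_eq, e3, abs_div, abs_of_pos hn0, div_lt_iff₀ hn0]
    nlinarith
  refine ⟨?_, hIcc⟩
  obtain ⟨B, hB⟩ := isCompact_univ.exists_bound_of_continuousOn F.continuous.continuousOn
  have hB' : ∀ x, |F x| ≤ B := fun x => hB x (Set.mem_univ x)
  have e2 : ∀ n : ℕ, ∑ i ∈ range n, F (S^[i] y) =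
      (F y - F (S^[n] y)) + ∑ i ∈ Finset.Icc 1 n, F (S^[i] y) := by
    intro n
    have h6 : ∑ i ∈ range (n + 1), F (S^[i] y) = F y + ∑ i ∈ Finset.Icc 1 n, F (S^[i] y) := by
      rw [Finset.sum_range_succ', add_comm]
      congr 1
      rw [Finset.range_eq_Ico, Finset.sum_Ico_add' (fun i => F (S^[i] y)) 0 n 1]
      rfl
    rw [Finset.sum_range_succ] at h6
    linarith
  have hdiff : Tendsto (fun n : ℕ => (F y - F (S^[n] y)) / (n : ℝ)) atTop (𝓝 0) := by
    have h1 : Tendsto (fun n : ℕ => (2 * B) / (n : ℝ)) atTop (𝓝 0) :=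
      tendsto_const_nhds.div_atTop tendsto_natCast_atTop_atTop
    refine squeeze_zero_norm (fun n => ?_) h1
    rw [Real.norm_eq_abs, abs_div, Nat.abs_cast]
    refine div_le_div_of_nonneg_right ?_ (Nat.cast_nonneg _)
    calc |F y - F (S^[n] y)| ≤ |F y| + |F (S^[n] y)| := abs_sub _ _
      _ ≤ 2 * B := by
        have := hB' y
        have := hB' (S^[n] y)
        linarith
  have h8 := hdiff.add hIcc
  rw [zero_add] at h8
  refine h8.congr fun n => ?_
  rw [e2 n, add_div]

end Pool.Agent.Helper59.ZA
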